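import Mathlib

/-! # Trilinear forms of cubic forms over a field of characteristic zero
(adapted from Pool.Agent.Y201.C3.Tri, where the field is the field of complex numbers) -/

set_option autoImplicit false
set_option linter.unusedSectionVars false

namespace Pool.Agent.R82.E3

open MvPolynomial

noncomputable section

variable {K : Type} [Field K] [CharZero K]
  {σ : Type} [Fintype σ] [DecidableEq σ] {R : Type} [CommRing R] [Algebra K R]

/-- the trilinear form with coefficients `T`, any index set -/
def Bg (T : σ → σ → σ → K) (x y z : σ → R) : R :=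
  ∑ i, ∑ j, ∑ k, algebraMap K R (T i j k) * x i * y j * z k

def SymG (T : σ → σ → σ → K) : Prop :=
  ∀ i j k, T i j k = T j i k ∧ T i j k = T i k j

theorem Bg_swap12 {T : σ → σ → σ → K} (hT : SymG T) (x y z : σ → R) :
    Bg T x y z = Bg T y x z := by
  unfold Bg
  rw [Finset.sum_comm]
  refine Finset.sum_congr rfl fun i _ => Finset.sum_congr rfl fun j _ =>
    Finset.sum_congr rfl fun k _ => ?_
  rw [(hT j i k).1]
  ring

theorem Bg_swap23 {T : σ → σ → σ → K} (hT : SymG T) (x y z : σ → R) :
    Bg T x y z = Bg T x z y := by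
  unfold Bg
  refine Finset.sum_congr rfl fun i _ => ?_
  rw [Finset.sum_comm]
  refine Finset.sum_congr rfl fun j _ => Finset.sum_congr rfl fun k _ => ?_
  rw [(hT i k j).2]
  ring

theorem Bg_add1 (T : σ → σ → σ → K) (x x' y z : σ → R) :
    Bg T (fun i => x i + x' i) y z = Bg T x y z + Bg T x' y z := by
  unfold Bg
  simp only [← Finset.sum_add_distrib]
  refine Finset.sum_congr rfl fun i _ => Finset.sum_congr rfl fun j _ =>
    Finset.sum_congr rfl fun k _ => ?_
  ring

theorem Bg_smul1 (T : σ → σ → σ → K) (c : R) (x y z : σ → R) :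
    Bg T (fun i => c * x i) y z = c * Bg T x y z := by
  unfold Bg
  simp only [Finset.mul_sum]
  refine Finset.sum_congr rfl fun i _ => Finset.sum_congr rfl fun j _ =>
    Finset.sum_congr rfl fun k _ => ?_
  ring

theorem Bg_add2 (T : σ → σ → σ → K) (x y y' z : σ → R) :
    Bg T x (fun i => y i + y' i) z = Bg T x y z + Bg T x y' z := by
  unfold Bg
  simp only [← Finset.sum_add_distrib]
  refine Finset.sum_congr rfl fun i _ => Finset.sum_congr rfl fun j _ =>
    Finset.sum_congr rfl fun k _ => ?_
  ring

theorem Bg_smul2 (T : σ → σ → σ → K) (c : R) (x y z : σ → R) :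
    Bg T x (fun i => c * y i) z = c * Bg T x y z := by
  unfold Bg
  simp only [Finset.mul_sum]
  refine Finset.sum_congr rfl fun i _ => Finset.sum_congr rfl fun j _ =>
    Finset.sum_congr rfl fun k _ => ?_
  ring

theorem Bg_add3 (T : σ → σ → σ → K) (x y z z' : σ → R) :
    Bg T x y (fun i => z i + z' i) = Bg T x y z + Bg T x y z' := by
  unfold Bg
  simp only [← Finset.sum_add_distrib]
  refine Finset.sum_congr rfl fun i _ => Finset.sum_congr rfl fun j _ =>
    Finset.sum_congr rfl fun k _ => ?_
  ring

theorem Bg_smul3 (T : σ → σ → σ → K) (c : R) (x y z : σ → R) :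
    Bg T x y (fun i => c * z i) = c * Bg T x y z := by
  unfold Bg
  simp only [Finset.mul_sum]
  refine Finset.sum_congr rfl fun i _ => Finset.sum_congr rfl fun j _ =>
    Finset.sum_congr rfl fun k _ => ?_
  ring

theorem Bg_zero1 (T : σ → σ → σ → K) (y z : σ → R) : Bg T (fun _ => 0) y z = 0 := by
  unfold Bg
  simp

/-- sums in the first argument -/
theorem Bg_sum1 (T : σ → σ → σ → K) {ι : Type} (s : Finset ι) (x : ι → σ → R) (y z : σ → R) :
    Bg T (fun i => ∑ a ∈ s, x a i) y z = ∑ a ∈ s, Bg T (x a) y z := by
  classical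
  induction s using Finset.induction_on with
  | empty => simp only [Finset.sum_empty, Bg_zero1]
  | insert a s ha ih =>
    simp only [Finset.sum_insert ha]
    rw [Bg_add1, ih]

theorem Bg_sum2 {T : σ → σ → σ → K} (hT : SymG T) {ι : Type} (s : Finset ι) (x : ι → σ → R)
    (y z : σ → R) :
    Bg T y (fun i => ∑ a ∈ s, x a i) z = ∑ a ∈ s, Bg T y (x a) z := by
  rw [Bg_swap12 hT, Bg_sum1]
  exact Finset.sum_congr rfl fun a _ => Bg_swap12 hT _ _ _

theorem Bg_sum3 {T : σ → σ → σ → K} (hT : SymG T) {ι : Type} (s : Finset ι) (x : ι → σ → R)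
    (y z : σ → R) :
    Bg T y z (fun i => ∑ a ∈ s, x a i) = ∑ a ∈ s, Bg T y z (x a) := by
  rw [Bg_swap23 hT, Bg_sum2 hT]
  exact Finset.sum_congr rfl fun a _ => Bg_swap23 hT _ _ _

theorem aeval_frmG (T : σ → σ → σ → K) (x : σ → R) :
    aeval x (Bg T X X X : MvPolynomial σ K) = Bg T x x x := by
  unfold Bg
  simp only [map_sum, map_mul, aeval_X, AlgHom.commutes]

theorem map_Bg {R' : Type} [CommRing R'] [Algebra K R'] (φ : R →ₐ[K] R') (T : σ → σ → σ → K)
    (x y z : σ → R) : φ (Bg T x y z) = Bg T (fun i => φ (x i)) (fun i => φ (y i))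
      (fun i => φ (z i)) := by
  unfold Bg
  simp only [map_sum, map_mul, AlgHom.commutes]

omit [CharZero K] in
theorem pderiv_commK {τ : Type} (i j : τ) (f : MvPolynomial τ K) :
    pderiv i (pderiv j f) = pderiv j (pderiv i f) := by
  classical
  have h : ⁅(pderiv i : Derivation K (MvPolynomial τ K) (MvPolynomial τ K)),
      (pderiv j : Derivation K (MvPolynomial τ K) (MvPolynomial τ K))⁆ = 0 := by
    apply MvPolynomial.derivation_ext
    intro l
    rw [Derivation.commutator_apply, Derivation.zero_apply]
    have h1 : ∀ (a b : τ), pderiv a (pderiv b (X l : MvPolynomial τ K)) = 0 := by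
      intro a b
      rcases eq_or_ne l b with h | h
      · subst h
        rw [pderiv_X_self, pderiv_one]
      · rw [pderiv_X_of_ne h, map_zero]
    rw [h1, h1, sub_zero]
  have h2 : ⁅(pderiv i : Derivation K (MvPolynomial τ K) (MvPolynomial τ K)),
      (pderiv j : Derivation K (MvPolynomial τ K) (MvPolynomial τ K))⁆ f = 0 := by
    rw [h, Derivation.zero_apply]
  rw [Derivation.commutator_apply] at h2
  exact sub_eq_zero.1 h2

/-- every cubic form has a symmetric trilinear form -/
theorem exists_tri (F : MvPolynomial σ K) (hF : F.IsHomogeneous 3) :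
    ∃ T : σ → σ → σ → K, SymG T ∧ F = Bg T X X X := by
  have h1 : ∀ i, (pderiv i F).IsHomogeneous 2 := fun i => by
    have := hF.pderiv (i := i)
    exact this
  have h2 : ∀ i j, (pderiv j (pderiv i F)).IsHomogeneous 1 := fun i j => by
    have := (h1 i).pderiv (i := j)
    exact this
  have h3 : ∀ i j k, (pderiv k (pderiv j (pderiv i F))).IsHomogeneous 0 := fun i j k => by
    have := (h2 i j).pderiv (i := k)
    exact this
  have h4 : ∀ i j k, ∃ c : K, pderiv k (pderiv j (pderiv i F)) = C c := fun i j k => by
    have h5 := (h3 i j k).totalDegree_le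
    rw [Nat.le_zero, totalDegree_eq_zero_iff_eq_C] at h5
    exact ⟨_, h5⟩
  choose c hc using h4
  have e3 : ∀ i j, pderiv j (pderiv i F) = ∑ k, X k * C (c i j k) := fun i j => by
    have := (h2 i j).sum_X_mul_pderiv
    rw [one_smul] at this
    rw [← this]
    exact Finset.sum_congr rfl fun k _ => by rw [hc]
  have e2 : ∀ i, (2 : MvPolynomial σ K) * pderiv i F = ∑ j, X j * ∑ k, X k * C (c i j k) :=
    fun i => by
      have := (h1 i).sum_X_mul_pderiv
      rw [nsmul_eq_mul] at this
      rw [show (2 : MvPolynomial σ K) = ((2 : ℕ) : MvPolynomial σ K) by norm_num, ← this]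
      exact Finset.sum_congr rfl fun j _ => by rw [e3]
  have e1 : (3 : MvPolynomial σ K) * F = ∑ i, X i * pderiv i F := by
    have := hF.sum_X_mul_pderiv
    rw [nsmul_eq_mul] at this
    rw [show (3 : MvPolynomial σ K) = ((3 : ℕ) : MvPolynomial σ K) by norm_num, ← this]
  have hcomm : ∀ i j (p : MvPolynomial σ K), pderiv i (pderiv j p) = pderiv j (pderiv i p) :=
    fun i j p => pderiv_commK i j p
  refine ⟨fun i j k => c i j k / 6, fun i j k => ⟨?_, ?_⟩, ?_⟩
  · have : C (c i j k) = (C (c j i k) : MvPolynomial σ K) := by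
      rw [← hc, ← hc, hcomm j i]
    change c i j k / 6 = c j i k / 6
    rw [C_injective _ _ this]
  · have : C (c i j k) = (C (c i k j) : MvPolynomial σ K) := by
      rw [← hc, ← hc, hcomm k j]
    change c i j k / 6 = c i k j / 6
    rw [C_injective _ _ this]
  · have h6 : (6 : MvPolynomial σ K) * F = ∑ i, X i * ∑ j, X j * ∑ k, X k * C (c i j k) := by
      calc (6 : MvPolynomial σ K) * F = 2 * (3 * F) := by ring
        _ = ∑ i, X i * (2 * pderiv i F) := by
          rw [e1, Finset.mul_sum]
          exact Finset.sum_congr rfl fun i _ => by ring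
        _ = _ := Finset.sum_congr rfl fun i _ => by rw [e2]
    have h7 : (6 : MvPolynomial σ K) * Bg (fun i j k => c i j k / 6) X X X =
        ∑ i, X i * ∑ j, X j * ∑ k, X k * C (c i j k) := by
      unfold Bg
      simp only [Finset.mul_sum]
      refine Finset.sum_congr rfl fun i _ => Finset.sum_congr rfl fun j _ =>
        Finset.sum_congr rfl fun k _ => ?_
      have h8 : (C (c i j k) : MvPolynomial σ K) = 6 * C (c i j k / 6) := by
        rw [show (6 : MvPolynomial σ K) = C 6 from (map_ofNat C 6).symm, ← C_mul]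
        congr 1
        ring
      rw [h8, algebraMap_eq]
      ring
    have h9 : (6 : MvPolynomial σ K) ≠ 0 := by
      rw [show (6 : MvPolynomial σ K) = C 6 from (map_ofNat C 6).symm]
      intro h
      have := C_injective _ _ (h.trans C_0.symm)
      norm_num at this
    exact mul_left_cancel₀ h9 (h6.trans h7.symm)

theorem pderiv_frmG {T : σ → σ → σ → K} (hT : SymG T) (l : σ) (z : σ → R) :
    aeval z (pderiv l (Bg T X X X : MvPolynomial σ K)) =
      3 * Bg T (fun i => if i = l then 1 else 0) z z := by
  have h1 : ∀ i j k, pderiv l (algebraMap K (MvPolynomial σ K) (T i j k) * X i * X j * X k) =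
      algebraMap K (MvPolynomial σ K) (T i j k) * (if i = l then 1 else 0) * X j * X k +
      algebraMap K (MvPolynomial σ K) (T i j k) * X i * (if j = l then 1 else 0) * X k +
      algebraMap K (MvPolynomial σ K) (T i j k) * X i * X j * (if k = l then 1 else 0) := by
    intro i j k
    have h2 : ∀ a : σ, pderiv l (X a : MvPolynomial σ K) = if a = l then 1 else 0 := by
      intro a
      rw [pderiv_X]
      simp only [Pi.single_apply]
    rw [pderiv_mul, pderiv_mul, pderiv_mul, h2, h2, h2, algebraMap_eq, pderiv_C]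
    ring
  have h3 : pderiv l (Bg T X X X : MvPolynomial σ K) =
      Bg T (fun i => if i = l then 1 else 0) X X + Bg T X (fun i => if i = l then 1 else 0) X +
      Bg T X X (fun i => if i = l then 1 else 0) := by
    unfold Bg
    simp only [map_sum, ← Finset.sum_add_distrib]
    exact Finset.sum_congr rfl fun i _ => Finset.sum_congr rfl fun j _ =>
      Finset.sum_congr rfl fun k _ => h1 i j k
  rw [h3, Bg_swap23 hT X X, Bg_swap12 hT X _ X, map_add, map_add, map_Bg]
  have h4 : (fun i => aeval z ((fun i => if i = l then (1 : MvPolynomial σ K) else 0) i)) =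
      (fun i => if i = l then (1 : R) else 0) := by
    funext i
    by_cases h : i = l <;> simp [h]
  have h5 : (fun i => aeval z (X i : MvPolynomial σ K)) = z := by
    funext i
    rw [aeval_X]
  rw [h4, h5]
  ring


end

end Pool.Agent.R82.E3
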